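import Pool.Agent.H66.SYM.Basic

/-!
# Module DCP: the tensor products of the `V_lam(τ)` and their duals
-/

namespace Pool.H66.SYM

open Filter Topology

/-- The Schur function of the empty partition. -/
theorem DCP_schur_zero (hHSB : S_HSB) (m : ℕ) (X : Multiset ℂ) :
    schur (fun _ : Fin m => 0) X = 1 := by
  unfold schur JT
  rw [Matrix.det_of_isUpperTriangular]
  · simp [sz, hHSB.1]
  · intro i j hij
    have h : (j : ℕ) < (i : ℕ) := hij
    have h1 : ¬ (0 : ℤ) ≤ ((0 : ℕ) : ℤ) - (i : ℤ) + (j : ℤ) := by omega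
    rw [Matrix.of_apply, sz, if_neg h1]

/-- The Schur function of a rectangle with `m` rows. -/
theorem DCP_schur_const (hHSB : S_HSB) (hCOL : S_COL) (m : ℕ) (c : Fin m → ℂ) (k : ℕ) :
    schur (fun _ : Fin m => k) (Finset.univ.val.map c) = (∏ j, c j) ^ k := by
  induction k with
  | zero => rw [DCP_schur_zero hHSB, pow_zero]
  | succ k ih => rw [hCOL m c (fun _ => k), ih, pow_succ, mul_comm]

/-- Traces determine cuspidal representations. -/
theorem DCP_tr_inj (A : Aut) (hIND : S_IND) {x y : A.Cusp} (h : ∀ p, A.tr x p = A.tr y p) :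
    x = y := by
  have h1 := (hIND A).1 {x} {y} (fun v n _ => by
    rw [eigs_singleton, eigs_singleton]
    exact h _)
  simpa using h1

/-- Twists by powers of a representation of degree one. -/
theorem DCP_twist (A : Aut) (hBAS : S_BAS) (χ : A.Cusp) (hχ : A.deg χ = 1) (x : A.Cusp) (k : ℕ) :
    ∃ y, ∀ p, A.eig y p = (A.eig x p).map fun a => A.tr χ p ^ k * a := by
  induction k with
  | zero => exact ⟨x, fun p => by simp⟩
  | succ k ih =>
    obtain ⟨y, hy⟩ := ih
    refine ⟨A.mul χ y, fun p => ?_⟩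
    rw [(hBAS A).2.2.2.2.2.1 χ y p hχ, hy, Multiset.map_map]
    refine Multiset.map_congr rfl fun a _ => ?_
    simp only [Function.comp]
    ring

/-- The virtual trace, as an additive map. -/
noncomputable def DCP_lin (A : AData) (p : A.Pt) : (A.Cusp →₀ ℤ) →+ ℂ :=
  Finsupp.liftAddHom fun z => (AddMonoidHom.mulRight (A.tr z p)).comp (Int.castAddHom ℂ)

theorem DCP_lin_apply (A : AData) (p : A.Pt) (k : A.Cusp →₀ ℤ) :
    DCP_lin A p k = k.sum fun z n => (n : ℂ) * A.tr z p := by
  unfold DCP_lin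
  rw [Finsupp.liftAddHom_apply]
  rfl

/-- The inverse of the determinant. -/
theorem DCP_det (A : Aut) (hBAS : S_BAS) (τ : A.Cusp) :
    ∃ χ, A.deg χ = 1 ∧ ∀ p, A.tr χ p = (A.eig τ p).prod⁻¹ := by
  refine ⟨A.dual (A.det τ), by rw [A.deg_dual, A.deg_det], fun p => ?_⟩
  have h1 := (hBAS A).2.2.2.2.1 (A.det τ) p
  have h2 := (hBAS A).2.2.2.2.2.2.1 τ p
  unfold AData.tr
  rw [h1, h2]
  simp

/-- The pattern of `V_nu(τ)` at the tame point. -/
theorem DCP_pat (hLBA : S_LBA) (hKOS : S_KOS) (A : Aut) (τ : A.Cusp) (m H : ℕ)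
    (F : Finset A.Cusp) (v : A.Pl) (t : A.W v) (c : Fin m → ℂ) (hm : 2 ≤ m) (hdeg : A.deg τ = m)
    (hG : A.GPt τ m H F v t c) (nu : Fin m → ℕ) (hnu : Antitone nu) (hH : ∑ j, nu j + m ≤ H)
    (x : A.Cusp) (hx : ∀ p, A.tr x p = schur nu (A.eig τ p)) :
    ∃ B, A.Pat x ((∑ j, nu j : ℕ) : ℤ) H ⟨v, t, 1⟩ c B ∧ (fun j => (nu j : ℤ)) ∈ B ∧
      ∀ a ∈ B, (a = fun j => (nu j : ℤ)) ∨ ∃ i, (∀ j, j < i → a j = nu j) ∧ a i < nu i := by
  classical
  obtain ⟨K, hK1, hK2, hK3, hK4, hK5, hK6⟩ := hKOS m nu hnu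
  obtain ⟨B, hB1, hB2⟩ := hLBA A τ m H F v t c hm hdeg hG nu hnu hH K hK1 hK2 {x}
    (fun p => by rw [eigs_singleton]; exact hx p)
  have hc : ∀ a, ((B x).count a : ℤ) = K a := fun a => by simpa using hB2 a
  refine ⟨B x, (hB1 x (by simp)).1, ?_, ?_⟩
  · have h1 := hc fun j => (nu j : ℤ)
    rw [hK4] at h1
    exact Multiset.count_pos.1 (by omega)
  · intro a ha
    refine hK5 a ?_
    rw [Finsupp.mem_support_iff, ← hc a]
    have := Multiset.count_pos.2 ha
    omega

/-- The representations `V_nu(τ)` are distinct. -/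
theorem DCP_inj {A : Aut} {m k : ℕ} {H : ℕ} {v : A.Pl} {t : A.W v} {c : Fin m → ℂ}
    (hc0 : ∀ j, c j ≠ 0) (hg : Gen (2 * H) c) {lam mu : Fin m → ℕ} {x : A.Cusp}
    (hlam : ∑ j, lam j = k) (hmu : ∑ j, mu j = k) {B B' : Multiset (Fin m → ℤ)}
    (hB : A.Pat x ((∑ j, lam j : ℕ) : ℤ) H ⟨v, t, 1⟩ c B)
    (hB' : A.Pat x ((∑ j, mu j : ℕ) : ℤ) H ⟨v, t, 1⟩ c B')
    (h1 : (fun j => (lam j : ℤ)) ∈ B) (h1' : (fun j => (mu j : ℤ)) ∈ B')
    (h2 : ∀ a ∈ B, (a = fun j => (lam j : ℤ)) ∨ ∃ i, (∀ j, j < i → a j = lam j) ∧ a i < lam i)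
    (h2' : ∀ a ∈ B', (a = fun j => (mu j : ℤ)) ∨ ∃ i, (∀ j, j < i → a j = mu j) ∧ a i < mu i) :
    lam = mu := by
  have hmap : B.map (mon c) = B'.map (mon c) := by rw [← hB.2, ← hB'.2]
  have hin : ∀ {B B' : Multiset (Fin m → ℤ)}, B.map (mon c) = B'.map (mon c) →
      (∀ a ∈ B, a ∈ Wt m (k : ℤ) H) → (∀ a ∈ B', a ∈ Wt m (k : ℤ) H) → ∀ a ∈ B, a ∈ B' := by
    intro B B' hmap hB hB' a ha
    have h3 : mon c a ∈ B'.map (mon c) := by
      rw [← hmap]
      exact Multiset.mem_map_of_mem _ ha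
    obtain ⟨b, hb, hab⟩ := Multiset.mem_map.1 h3
    have := mon_inj hc0 hg (hB a ha) (hB' b hb) hab.symm
    rwa [this]
  rw [hlam] at hB
  rw [hmu] at hB'
  have h3 := h2 _ (hin hmap.symm hB'.1 hB.1 _ h1')
  have h3' := h2' _ (hin hmap hB.1 hB'.1 _ h1)
  rcases h3 with h3 | ⟨i, hi, hi'⟩
  · funext j
    have := congrFun h3 j
    omega
  rcases h3' with h4 | ⟨i₂, hj, hj'⟩
  · funext j
    have := congrFun h4 j
    omega
  exfalso
  rcases lt_trichotomy i i₂ with h | h | h
  · have := hj i h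
    omega
  · subst h
    omega
  · have := hi i₂ h
    omega

/-- Module DCP. -/
theorem s_DCP (hLBX : S_LBX) (hLBA : S_LBA) (hVIC : S_VIC) (hSPN : S_SPN) (hKOS : S_KOS)
    (hREC : S_REC) (hIND : S_IND) (hTEN : S_TEN) (hRMU : S_RMU) (hRTA : S_RTA) (hBAS : S_BAS)
    (hHSB : S_HSB) (hCOL : S_COL) : S_DCP := by
  classical
  intro r k hr
  obtain ⟨H₁, hH₁⟩ := hLBX r ((r + 1) * k) hr
  refine ⟨max H₁ ((r + 1) * k + (r + 1)), fun H hH A τ F hsym hsch hgood => ?_⟩
  have hHa : H₁ ≤ H := (le_max_left _ _).trans hH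
  have hHb : (r + 1) * k + (r + 1) ≤ H := (le_max_right _ _).trans hH
  have hm : 2 ≤ r + 1 := by omega
  have hV := hH₁ H hHa A τ F hsym hsch hgood
  obtain ⟨hdeg, htemp, v, t, c, hG⟩ := hgood
  obtain ⟨hab, hF, hord, hc0, hgen, hGP⟩ := id hG
  have hmk : k ≤ (r + 1) * k := Nat.le_mul_of_pos_left k (Nat.succ_pos r)
  have hx : ∀ nu : Fin (r + 1) → ℕ, ∃ x : A.Cusp, (Antitone nu ∧ ∑ j, nu j ≤ (r + 1) * k) →
      ∀ p, A.tr x p = schur nu (A.eig τ p) := by
    intro nu
    by_cases h : Antitone nu ∧ ∑ j, nu j ≤ (r + 1) * k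
    · obtain ⟨x, hx⟩ := hV nu h.1 h.2
      exact ⟨x, fun _ => hx⟩
    · exact ⟨A.one, fun h' => absurd h' h⟩
  choose x hx using hx
  have hxk : ∀ lam ∈ Par (r + 1) k, ∀ p, A.tr (x lam) p = schur lam (A.eig τ p) :=
    fun lam hl => hx lam ⟨hl.1, by rw [hl.2]; exact hmk⟩
  have hxm : ∀ nu ∈ Par (r + 1) ((r + 1) * k), ∀ p, A.tr (x nu) p = schur nu (A.eig τ p) :=
    fun nu hl => hx nu ⟨hl.1, by rw [hl.2]⟩
  have hirr : ∀ lam ∈ Par (r + 1) k, x lam ∈ A.Irr τ (r + 1) (k : ℤ) (k + (r + 1)) := by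
    intro lam hl
    have := hVIC A τ (r + 1) hm hdeg lam hl.1 {x lam}
      (fun p => by rw [eigs_singleton]; exact hxk lam hl p) (x lam) (by simp)
    rwa [hl.2] at this
  obtain ⟨hR1, -⟩ := hRMU A τ (r + 1) (hsym 2) hm hdeg
  obtain ⟨hA1, hA2, hA3, -⟩ := hRTA A τ (r + 1) hm hdeg
  have hdual : ∀ lam ∈ Par (r + 1) k,
      A.dual (x lam) ∈ A.Irr τ (r + 1) (-(k : ℤ)) (k + (r + 1)) :=
    fun lam hl => hA3 _ _ _ (hirr lam hl)
  refine ⟨v, t, hab, hF, x, fun lam hl => ⟨(htemp _ _ _ (hirr lam hl)).1, hxk lam hl⟩, ?_⟩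
  intro lam hlam mu hmu
  obtain ⟨T, hT⟩ := hTEN A (hsym 2) {x lam} {A.dual (x mu)}
  have hT' : ∀ p, (A.eigs T p).sum = A.tr (x lam) p * A.tr (A.dual (x mu)) p := by
    intro p
    rw [hT p, eigs_singleton, eigs_singleton]
    rfl
  have hTirr : ∀ w ∈ T, A.expo w = 0 ∧ A.Temp w := fun w hw =>
    htemp _ _ _ (hR1 _ _ _ _ _ (hirr lam hlam) _ (hdual mu hmu) T hT' w hw)
  have hone : ∀ p, A.tr A.one p = 1 := fun p => by
    unfold AData.tr
    rw [(hBAS A).2.2.2.1 p, Multiset.sum_singleton]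
  have hcount : T.count A.one = if A.dual (x lam) = A.dual (x mu) then 1 else 0 := by
    have h := hREC A {x lam} {A.dual (x mu)} {A.one} T {A.dual (x lam)} (by
      intro z hz
      simp only [Multiset.mem_add, Multiset.mem_singleton] at hz
      rcases hz with (((rfl | rfl) | rfl) | hz) | rfl
      · exact htemp _ _ _ (hirr lam hlam)
      · exact htemp _ _ _ (hdual mu hmu)
      · exact htemp _ _ _ hA1
      · exact hTirr z hz
      · exact htemp _ _ _ (hdual lam hlam)) hT (fun p => by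
        rw [Multiset.map_singleton, eigs_singleton, eigs_singleton]
        change _ = _ * A.tr A.one p
        rw [hone p, mul_one])
    rw [finsum_eq_single _ A.one (fun z hz => by
      rw [Multiset.count_singleton, if_neg hz, mul_zero]),
      finsum_eq_single _ (A.dual (x lam)) (fun z hz => by
      rw [Multiset.count_singleton, if_neg hz, zero_mul])] at h
    simp only [Multiset.count_singleton, if_true, mul_one, one_mul] at h
    exact h
  refine ⟨T, hT', ?_, ?_, ?_⟩
  · rintro rfl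
    rw [hcount, if_pos rfl]
  · intro hne
    rw [hcount, if_neg]
    intro hd
    apply hne
    -- `x lam = x mu`
    have hxx : x lam = x mu := by
      refine DCP_tr_inj A hIND fun p => ?_
      have h5 := (hBAS A).2.2.2.2.1 (x lam) p
      have h6 := (hBAS A).2.2.2.2.1 (x mu) p
      rw [hd, h6] at h5
      have h7 := congrArg (fun X : Multiset ℂ => (X.map fun a => a⁻¹).sum) h5
      simpa [Multiset.map_map, AData.tr] using h7.symm
    have hHk : k + (r + 1) ≤ H := by omega
    obtain ⟨B, hB1, hB2, hB3⟩ := DCP_pat hLBA hKOS A τ (r + 1) H F v t c hm hdeg hG lam hlam.1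
      (by rw [hlam.2]; exact hHk) (x lam) (hxk lam hlam)
    obtain ⟨B', hB1', hB2', hB3'⟩ := DCP_pat hLBA hKOS A τ (r + 1) H F v t c hm hdeg hG mu hmu.1
      (by rw [hmu.2]; exact hHk) (x mu) (hxk mu hmu)
    rw [← hxx] at hB1'
    exact DCP_inj hc0 hgen hlam.2 hmu.2 hB1 hB1' hB2 hB2' hB3 hB3'
  · intro ρ hρ hρ1
    obtain ⟨ψ, hψ1, hψ2⟩ := hSPN (r + 1) k lam mu hlam hmu
    obtain ⟨χ, hχ1, hχ2⟩ := DCP_det A hBAS τ
    choose y hy using fun nu : Fin (r + 1) → ℕ => DCP_twist A hBAS χ hχ1 (x nu) k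
    -- the linear relation
    have hrel : ∀ p, (A.eigs T p).sum = ψ.sum fun nu n => (n : ℂ) * A.tr (y nu) p := by
      intro p
      obtain ⟨c', hc'⟩ := exists_ord A.toAData (τ := τ) (p := p) (m := r + 1)
        (by rw [(hBAS A).1, hdeg])
      have hne : ∀ j, c' j ≠ 0 := by
        intro j h0
        have h1 : c' j ∈ A.eig τ p := by
          rw [hc']
          exact Multiset.mem_map_of_mem _ (Finset.mem_univ_val j)
        rw [h0] at h1
        exact (hBAS A).2.1 τ p h1
      have hprod : A.tr χ p ^ k = (∏ j, c' j) ^ (-(k : ℤ)) := by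
        rw [hχ2, hc', zpow_neg, zpow_natCast, inv_pow]
        rfl
      have hmud : A.tr (A.dual (x mu)) p = schur mu (Finset.univ.val.map fun j => (c' j)⁻¹) := by
        have h1 : A.eig (A.dual (x mu)) p = A.eig (x mu) (p.pow (-1)) := by
          rw [(hBAS A).2.2.2.2.1, (hBAS A).2.2.1]
          refine Multiset.map_congr rfl fun a _ => ?_
          rw [zpow_neg, zpow_one]
        have h2 : A.tr (A.dual (x mu)) p = A.tr (x mu) (p.pow (-1)) := by
          unfold AData.tr
          rw [h1]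
        rw [h2, hxk mu hmu, (hBAS A).2.2.1, hc', Multiset.map_map]
        congr 1
        refine Multiset.map_congr rfl fun a _ => ?_
        simp only [Function.comp]
        rw [zpow_neg, zpow_one]
      rw [hT', hxk lam hlam, hmud, hc', hψ2 c' hne]
      refine Finset.sum_congr rfl fun nu hnu => ?_
      rw [← hc', ← hprod]
      change _ * (schur nu (A.eig τ p) * _) = _ * A.tr (y nu) p
      congr 1
      rw [← hxm nu (hψ1 nu hnu) p]
      unfold AData.tr
      rw [hy nu p, Multiset.sum_map_mul_left, mul_comm]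
      simp [AData.tr]
    -- linear independence
    have hlin : ∃ nu ∈ ψ.support, ρ = y nu := by
      by_contra hcon
      push Not at hcon
      have h0 := (hIND A).2
        ((∑ z ∈ T.toFinset, Finsupp.single z (T.count z : ℤ)) -
          ∑ nu ∈ ψ.support, Finsupp.single (y nu) (ψ nu)) (by
        intro v' n _
        rw [← DCP_lin_apply, map_sub, map_sum, map_sum, sub_eq_zero]
        simp only [DCP_lin_apply]
        have h1 := hrel ((A.frob v').pow n)
        rw [sum_eigs, Finset.sum_multiset_map_count] at h1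
        have h2 : ∀ (z : A.Cusp) (a : ℤ), ((Finsupp.single z a).sum fun z n' =>
            (n' : ℂ) * A.tr z ((A.frob v').pow n)) = a * A.tr z ((A.frob v').pow n) := by
          intro z a
          rw [Finsupp.sum_single_index]
          simp
        simp only [h2]
        simpa [Finsupp.sum, nsmul_eq_mul] using h1)
      have h1 := DFunLike.congr_fun h0 ρ
      simp only [Finsupp.coe_sub, Pi.sub_apply, Finsupp.coe_zero, Pi.zero_apply,
        Finsupp.finsetSum_apply] at h1
      rw [Finset.sum_eq_single ρ, Finset.sum_eq_zero] at h1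
      · have := Multiset.count_pos.2 hρ
        simp at h1
        contradiction
      · intro nu hnu
        rw [Finsupp.single_apply, if_neg (fun h => hcon nu hnu h.symm)]
      · intro z _ hz
        rw [Finsupp.single_apply, if_neg hz]
      · intro h
        exact absurd (Multiset.mem_toFinset.2 hρ) h
    obtain ⟨nu, hnu, rfl⟩ := hlin
    have hnuP := hψ1 nu hnu
    obtain ⟨B, hB1, hB2, hB3⟩ := DCP_pat hLBA hKOS A τ (r + 1) H F v t c hm hdeg hG nu hnuP.1
      (by rw [hnuP.2]; exact hHb) (x nu) (hxm nu hnuP)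
    have hprod : A.tr χ ⟨v, t, 1⟩ ^ k = (∏ j, c j) ^ (-(k : ℤ)) := by
      rw [hχ2, hord, zpow_neg, zpow_natCast, inv_pow]
      rfl
    refine ⟨A.tr χ ⟨v, t, 1⟩ ^ k * mon c (fun j => (nu j : ℤ)), ?_, ?_⟩
    · rw [hy]
      refine Multiset.mem_map_of_mem _ ?_
      rw [hB1.2]
      exact Multiset.mem_map_of_mem _ hB2
    · have h8 : A.tr χ ⟨v, t, 1⟩ ^ k * mon c (fun j => (nu j : ℤ)) =
          mon c (fun j => (nu j : ℤ) - k) := by
        rw [hprod]
        unfold mon
        rw [← Finset.prod_zpow, ← Finset.prod_mul_distrib]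
        refine Finset.prod_congr rfl fun j _ => ?_
        rw [← zpow_add₀ (hc0 j)]
        congr 1
        ring
      rw [h8]
      refine hgen _ ?_ ?_ ?_
      · intro h0
        apply hρ1
        refine DCP_tr_inj A hIND fun p => ?_
        have hnuk : nu = fun _ => k := by
          funext j
          have := congrFun h0 j
          simp only [Pi.zero_apply] at this
          omega
        obtain ⟨c', hc'⟩ := exists_ord A.toAData (τ := τ) (p := p) (m := r + 1)
          (by rw [(hBAS A).1, hdeg])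
        have hne : ∀ j, c' j ≠ 0 := by
          intro j h0
          have h1 : c' j ∈ A.eig τ p := by
            rw [hc']
            exact Multiset.mem_map_of_mem _ (Finset.mem_univ_val j)
          rw [h0] at h1
          exact (hBAS A).2.1 τ p h1
        have hP : (∏ j, c' j) ≠ 0 := Finset.prod_ne_zero_iff.2 fun j _ => hne j
        rw [hone p]
        have h9 : A.tr (y nu) p = A.tr χ p ^ k * A.tr (x nu) p := by
          unfold AData.tr
          rw [hy nu p, Multiset.sum_map_mul_left]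
          simp [AData.tr]
        rw [h9, hxm nu hnuP p, hχ2, hc', hnuk, DCP_schur_const hHSB hCOL, inv_pow]
        exact inv_mul_cancel₀ (pow_ne_zero _ hP)
      · have h3 : ∑ j, (nu j : ℤ) = (((r + 1) * k : ℕ) : ℤ) := by
          rw [← hnuP.2]
          push_cast
          rfl
        rw [Finset.sum_sub_distrib, h3]
        simp
      · have h3 : ∑ j, (nu j : ℤ) = (((r + 1) * k : ℕ) : ℤ) := by
          rw [← hnuP.2]
          push_cast
          rfl
        calc ∑ j, |(nu j : ℤ) - k| ≤ ∑ j : Fin (r + 1), ((nu j : ℤ) + k) :=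
              Finset.sum_le_sum fun j _ => by
                rw [abs_le]
                constructor <;> omega
          _ = (((r + 1) * k : ℕ) : ℤ) + (((r + 1) * k : ℕ) : ℤ) := by
              rw [Finset.sum_add_distrib, h3]
              simp
          _ ≤ ((2 * H : ℕ) : ℤ) := by
              push_cast
              have : (((r + 1) * k + (r + 1) : ℕ) : ℤ) ≤ H := by exact_mod_cast hHb
              push_cast at this
              nlinarith

end Pool.H66.SYM
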